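import Pool.Agent.W541.DL.Stm

/-!
# Project DL: STRIP, the variance of the sum over one strip
-/

set_option autoImplicit false

namespace Pool.Agent.W370.DL.STRIP

open MeasureTheory ProbabilityTheory Filter Topology
open Pool.Agent.W541.DL

lemma cl_abs (A v : ℝ) (hA : 0 ≤ A) : |cl A v| ≤ A := by
  unfold cl
  rw [abs_le]
  exact ⟨le_max_left _ _, max_le (by linarith) (min_le_left _ _)⟩

lemma cl_meas (A : ℝ) : Measurable (cl A) := by
  unfold cl
  fun_prop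

lemma val_meas {Ω : Type} [MeasurableSpace Ω] {P : Measure Ω} {L : Ω → C(R4, ℝ)}
    (hL : IsDirectedLandscape P L) (x s y t : ℝ) : Measurable (fun ω => val (L ω) x s y t) := by
  unfold val
  by_cases h : s < t
  · simp only [h, dif_pos]
    exact hL.meas _
  · simp only [h, dif_neg, not_false_eq_true]
    exact measurable_const

/-- Sums of bounded, weakly correlated random variables. -/
lemma var_sum_le {Ω : Type} [MeasurableSpace Ω] (P : Measure Ω) [IsProbabilityMeasure P]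
    (X : ℕ → Ω → ℝ) (A b : ℝ) (hA : 0 ≤ A) (hb : 0 ≤ b) (I : ℕ) (hm : ∀ i, Measurable (X i))
    (hX : ∀ i ω, |X i ω| ≤ A)
    (hc : ∀ i k, i < k → |(∫ ω, X i ω * X k ω ∂P) - (∫ ω, X i ω ∂P) * ∫ ω, X k ω ∂P| ≤ b) :
    Var[fun ω => ∑ i ∈ Finset.range I, X i ω; P] ≤ I * (2 * A ^ 2) + (I : ℝ) ^ 2 * b := by
  have hL : ∀ i, MemLp (X i) 2 P := fun i =>
    MemLp.of_bound (hm i).aestronglyMeasurable A (Filter.Eventually.of_forall fun ω => by
      rw [Real.norm_eq_abs]; exact hX i ω)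
  have hsm : Measurable (fun ω => ∑ i ∈ Finset.range I, X i ω) :=
    Finset.measurable_sum _ fun i _ => hm i
  rw [← covariance_self hsm.aemeasurable, covariance_fun_sum_fun_sum' (fun i _ => hL i)
    (fun i _ => hL i)]
  have hcov : ∀ i k, cov[X i, X k; P] =
      (∫ ω, X i ω * X k ω ∂P) - (∫ ω, X i ω ∂P) * ∫ ω, X k ω ∂P := by
    intro i k
    rw [covariance_eq_sub (hL i) (hL k)]
    rfl
  have hint : ∀ (Y : Ω → ℝ) (B : ℝ), (∀ ω, |Y ω| ≤ B) → |∫ ω, Y ω ∂P| ≤ B := by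
    intro Y B hY
    have h := norm_integral_le_of_norm_le_const (μ := P) (f := Y) (C := B)
      (Filter.Eventually.of_forall fun ω => by rw [Real.norm_eq_abs]; exact hY ω)
    rw [Real.norm_eq_abs] at h
    simpa using h
  have hdiag : ∀ i, cov[X i, X i; P] ≤ 2 * A ^ 2 := by
    intro i
    rw [hcov]
    have h1 : |∫ ω, X i ω * X i ω ∂P| ≤ A * A := by
      apply hint
      intro ω
      rw [abs_mul]
      exact mul_le_mul (hX i ω) (hX i ω) (abs_nonneg _) hA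
    have h2 := hint (X i) A (hX i)
    have h3 : |(∫ ω, X i ω ∂P) * ∫ ω, X i ω ∂P| ≤ A * A := by
      rw [abs_mul]
      exact mul_le_mul h2 h2 (abs_nonneg _) hA
    have h4 := (abs_le.mp h1).2
    have h5 := (abs_le.mp h3).1
    nlinarith
  have hoff : ∀ i k, i ≠ k → cov[X i, X k; P] ≤ b := by
    intro i k hik
    rcases lt_or_gt_of_ne hik with h | h
    · rw [hcov]; exact (abs_le.mp (hc i k h)).2
    · rw [covariance_comm, hcov]; exact (abs_le.mp (hc k i h)).2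
  have hall : ∀ i k, cov[X i, X k; P] ≤ (if i = k then 2 * A ^ 2 else 0) + b := by
    intro i k
    by_cases hik : i = k
    · subst hik
      rw [if_pos rfl]
      have := hdiag i
      linarith
    · rw [if_neg hik, zero_add]
      exact hoff i k hik
  calc ∑ i ∈ Finset.range I, ∑ k ∈ Finset.range I, cov[X i, X k; P]
      ≤ ∑ i ∈ Finset.range I, ∑ k ∈ Finset.range I, ((if i = k then 2 * A ^ 2 else 0) + b) :=
        Finset.sum_le_sum fun i _ => Finset.sum_le_sum fun k _ => hall i k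
    _ = ∑ i ∈ Finset.range I, (2 * A ^ 2 + I * b) := by
        refine Finset.sum_congr rfl fun i hi => ?_
        rw [Finset.sum_add_distrib, Finset.sum_ite_eq, if_pos hi, Finset.sum_const,
          Finset.card_range, nsmul_eq_mul]
    _ = I * (2 * A ^ 2) + (I : ℝ) ^ 2 * b := by
        rw [Finset.sum_const, Finset.card_range, nsmul_eq_mul]
        ring

theorem main (hC : S_COV) (hT : S_TAIL) (hG : S_TIGHT) (hW : S_LAWL) : S_STRIP := by
  intro Ω _ P L hL A hA x0 t0 ρ hρ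
  have := hL.prob
  obtain ⟨Ω', _, P', W, hBM, hS⟩ := hL.airy
  have hSm : ∀ s t x y : ℝ,
      Measurable (fun ω => t⁻¹ * val (L ω) (t ^ 2 * x) s (t ^ 2 * y) (s + t ^ 3)) :=
    fun s t x y => (val_meas hL _ _ _ _).const_mul _
  obtain ⟨c, hc⟩ := hG Ω' P' W Ω P _ hBM hL.prob (hSm 0 1) (hS 0 1 one_pos)
  obtain ⟨C, hC0, hCt⟩ := hT Ω P L hL
  set K : ℝ := 64 * A ^ 2 * (4096 * C) with hK
  have hK0 : 0 < K := by positivity
  refine ⟨2 * A ^ 2 * ρ / 3 + ρ ^ 2 * K, by positivity, ?_⟩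
  obtain ⟨M, hM⟩ := exists_nat_ge (2 * (A + 1) + 4 * c)
  filter_upwards [eventually_ge_atTop (max M 1)] with m hm j
  have hm1 : 1 ≤ m := (le_max_right _ _).trans hm
  have hmM : M ≤ m := (le_max_left _ _).trans hm
  have hmr : (1 : ℝ) ≤ m := by exact_mod_cast hm1
  have hm0 : (0 : ℝ) < m := by linarith
  have hmne : (m : ℝ) ≠ 0 := hm0.ne'
  have hmc : 2 * (A + 1) + 4 * c ≤ (m : ℝ) ^ 2 := by
    have h1 : (M : ℝ) ≤ m := by exact_mod_cast hmM
    nlinarith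
  set τ : ℝ := ((m : ℝ) ^ 3)⁻¹ with hτ
  have hτ0 : 0 < τ := by positivity
  set s : ℝ := t0 + j / m ^ 9 with hs
  have hss : s + τ ^ 3 = t0 + (j + 1) / m ^ 9 := by
    rw [hs, hτ]
    field_simp
    ring
  set S : ℝ → ℝ → Ω → ℝ := fun x y ω =>
    τ⁻¹ * val (L ω) (τ ^ 2 * x) s (τ ^ 2 * y) (s + τ ^ 3) with hSd
  have hcell : ∀ (i : ℕ) ω, m ^ 3 * cellv (L ω) x0 t0 m i j =
      S (m ^ 6 * x0 + 3 * i * m) (m ^ 6 * x0 + 3 * i * m) ω := by
    intro i ω
    have h1 : τ ^ 2 * (m ^ 6 * x0 + 3 * i * m) = x0 + 3 * i / m ^ 5 := by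
      rw [hτ]
      field_simp
    simp only [hSd, cellv, h1, hss]
    rw [hτ, inv_inv]
  -- the tail
  have htail : P.real {ω | (m : ℝ) ^ 2 / 16 ≤ S 0 0 ω} ≤ 4096 * C / m ^ 6 := by
    have hlt : s < s + τ ^ 3 := by
      have : 0 < τ ^ 3 := by positivity
      linarith
    have hid := hW Ω P L hL 0 0 s (s + τ ^ 3) hlt
    have hmS : MeasurableSet {v : ℝ | (m : ℝ) ^ 2 / 16 ≤ τ⁻¹ * v} :=
      measurableSet_le measurable_const (measurable_const.mul measurable_id)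
    have h1 := hid.measure_mem_eq hmS
    have h2 : ((s + τ ^ 3 - s) : ℝ) ^ ((1 : ℝ) / 3) = τ := by
      rw [add_sub_cancel_left, ← Real.rpow_natCast, ← Real.rpow_mul hτ0.le]
      norm_num
    have h3 : {ω | (m : ℝ) ^ 2 / 16 ≤ S 0 0 ω} =
        (fun ω => val (L ω) 0 s 0 (s + τ ^ 3)) ⁻¹' {v : ℝ | (m : ℝ) ^ 2 / 16 ≤ τ⁻¹ * v} := by
      ext ω
      simp only [hSd, mul_zero, Set.mem_ofPred_eq, Set.mem_preimage]
    have h4 : (fun ω => (s + τ ^ 3 - s) ^ ((1 : ℝ) / 3) * val (L ω) 0 0 0 1 -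
        (0 - 0) ^ 2 / (s + τ ^ 3 - s)) ⁻¹' {v : ℝ | (m : ℝ) ^ 2 / 16 ≤ τ⁻¹ * v} =
        {ω | (m : ℝ) ^ 2 / 16 ≤ val (L ω) 0 0 0 1} := by
      ext ω
      simp only [Set.mem_ofPred_eq, Set.mem_preimage, h2]
      have : τ⁻¹ * (τ * val (L ω) 0 0 0 1 - (0 - 0) ^ 2 / (s + τ ^ 3 - s)) =
          val (L ω) 0 0 0 1 := by
        rw [sub_self, zero_pow two_ne_zero, zero_div, sub_zero, ← mul_assoc,
          inv_mul_cancel₀ hτ0.ne', one_mul]
      rw [this]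
    have h5 : P.real {ω | (m : ℝ) ^ 2 / 16 ≤ S 0 0 ω} =
        P.real {ω | (m : ℝ) ^ 2 / 16 ≤ val (L ω) 0 0 0 1} := by
      rw [Measure.real, Measure.real, h3, h1, h4]
    rw [h5]
    refine (hCt _ (by positivity)).trans (le_of_eq ?_)
    field_simp
    norm_num
  have hI : (nI ρ m : ℝ) ≤ ρ * m ^ 5 / 3 := Nat.floor_le (by positivity)
  set b : ℝ := 64 * A ^ 2 * (4096 * C / m ^ 6) with hb
  have hb0 : 0 ≤ b := by positivity
  have hfun : (fun ω => ∑ i ∈ Finset.range (nI ρ m), cl A (m ^ 3 * cellv (L ω) x0 t0 m i j)) =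
      fun ω => ∑ i ∈ Finset.range (nI ρ m),
        (fun (i : ℕ) ω => cl A (S (m ^ 6 * x0 + 3 * i * m) (m ^ 6 * x0 + 3 * i * m) ω)) i ω := by
    funext ω
    exact Finset.sum_congr rfl fun i _ => by rw [hcell]
  rw [hfun]
  have hvar := var_sum_le P
    (fun (i : ℕ) ω => cl A (S (m ^ 6 * x0 + 3 * i * m) (m ^ 6 * x0 + 3 * i * m) ω)) A b hA.le hb0
    (nI ρ m) (fun i => (cl_meas A).comp (hSm s τ _ _)) (fun i ω => cl_abs A _ hA.le) (by
      intro i k hik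
      have hik' : (i : ℝ) + 1 ≤ k := by exact_mod_cast hik
      have h1 := hC Ω' P' W Ω P S c A m (m ^ 6 * x0 + 3 * i * m) (m ^ 6 * x0 + 3 * k * m) hBM
        hL.prob (hSm s τ) (hS s τ hτ0) hc hA.le hm0 hmc (by nlinarith)
      refine h1.trans ?_
      rw [hb]
      exact mul_le_mul_of_nonneg_left htail (by positivity))
  refine hvar.trans ?_
  have hI0 : (0 : ℝ) ≤ nI ρ m := Nat.cast_nonneg _
  have hI2 : (nI ρ m : ℝ) ^ 2 ≤ (ρ * m ^ 5 / 3) ^ 2 := pow_le_pow_left₀ hI0 hI 2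
  have e1 : (nI ρ m : ℝ) * (2 * A ^ 2) ≤ (ρ * m ^ 5 / 3) * (2 * A ^ 2) :=
    mul_le_mul_of_nonneg_right hI (by positivity)
  have e2 : (nI ρ m : ℝ) ^ 2 * b ≤ (ρ * m ^ 5 / 3) ^ 2 * b := mul_le_mul_of_nonneg_right hI2 hb0
  have e3 : (ρ * m ^ 5 / 3) ^ 2 * b = ρ ^ 2 / 9 * K * m ^ 4 := by
    rw [hb, hK]
    field_simp
    norm_num
  have e4 : (m : ℝ) ^ 4 ≤ m ^ 5 := pow_le_pow_right₀ hmr (by norm_num)
  have e5 : ρ ^ 2 / 9 * K * (m : ℝ) ^ 4 ≤ ρ ^ 2 * K * m ^ 5 := by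
    refine mul_le_mul ?_ e4 (by positivity) (by positivity)
    refine mul_le_mul_of_nonneg_right ?_ hK0.le
    nlinarith [sq_nonneg ρ]
  nlinarith

end Pool.Agent.W370.DL.STRIP
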